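import Mathlib
import Pool.Agent.L7h49.OF.Stm2
import Pool.Agent.L7h76.OF.NL
import Pool.Agent.L7h76.OF.Om

/-!
Straightening charts: extension of functions by zero, tangent vectors, the slice (part `S_LOC` of
the project OF).
-/

set_option autoImplicit false
set_option linter.unusedSectionVars false
set_option linter.unusedSimpArgs false

open Set Filter Topology
open scoped Manifold ContDiff

noncomputable section

namespace Pool.Agent.L7h76.OG

open Pool.Agent.Y501.SY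
open Pool.Agent.N13.TL
open Pool.Agent.L7h76.OF (B_left B_left_smul B_right B_right_smul B_swap)

section ext

variable {m : ℕ} {X : Type} [TopologicalSpace X] [ChartedSpace (E m) X]

/-- a straightening chart -/
structure Ch (θ : E m → X) (ψ : X → E m) (Ω : Set (E m)) : Prop where
  open1 : IsOpen Ω
  sm : ContMDiffOn (𝓡 m) (𝓡 m) ∞ θ Ω
  open2 : IsOpen (θ '' Ω)
  sm2 : ContMDiffOn (𝓡 m) (𝓡 m) ∞ ψ (θ '' Ω)
  inv : ∀ p ∈ Ω, ψ (θ p) = p

open Classical in
/-- extension by zero -/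
def ex (θ : E m → X) (ψ : X → E m) (Ω : Set (E m)) (a : E m → ℝ) (x : X) : ℝ :=
  if x ∈ θ '' Ω then a (ψ x) else 0

variable {θ : E m → X} {ψ : X → E m} {Ω : Set (E m)}

lemma ex_off {a : E m → ℝ} {x : X} (hx : x ∉ θ '' Ω) : ex θ ψ Ω a x = 0 := if_neg hx

lemma ex_at (h : Ch θ ψ Ω) (a : E m → ℝ) {p : E m} (hp : p ∈ Ω) : ex θ ψ Ω a (θ p) = a p := by
  unfold ex
  rw [if_pos (mem_image_of_mem θ hp), h.inv p hp]

lemma ex_near [T2Space X] (h : Ch θ ψ Ω) {a : E m → ℝ} (hc : HasCompactSupport a)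
    (hs : tsupport a ⊆ Ω) {x : X} (hx : x ∉ θ '' tsupport a) :
    ex θ ψ Ω a =ᶠ[𝓝 x] fun _ => 0 := by
  have h1 : IsClosed (θ '' tsupport a) :=
    (hc.isCompact.image_of_continuousOn (h.sm.continuousOn.mono hs)).isClosed
  filter_upwards [h1.isOpen_compl.mem_nhds hx] with y hy
  by_cases hy2 : y ∈ θ '' Ω
  · obtain ⟨p, hp, rfl⟩ := hy2
    rw [ex_at h a hp]
    by_contra hne
    exact hy (mem_image_of_mem θ (subset_tsupport a hne))
  · exact ex_off hy2

lemma ex_smooth [T2Space X] (h : Ch θ ψ Ω) {a : E m → ℝ} (ha : ContDiff ℝ ∞ a)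
    (hc : HasCompactSupport a) (hs : tsupport a ⊆ Ω) : SmoothFun (d := m) (ex θ ψ Ω a) := by
  intro x
  by_cases hx : x ∈ θ '' Ω
  · have h1 : ContMDiffAt (𝓡 m) 𝓘(ℝ, ℝ) ∞ (fun y => a (ψ y)) x :=
      (contMDiff_iff_contDiff.2 ha _).comp x (h.sm2.contMDiffAt (h.open2.mem_nhds hx))
    refine h1.congr_of_eventuallyEq ?_
    filter_upwards [h.open2.mem_nhds hx] with y hy
    exact if_pos hy
  · refine contMDiffAt_const.congr_of_eventuallyEq (ex_near h hc hs fun hx' => ?_)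
    exact hx (image_mono hs hx')

lemma dd_zero_of {u : X → ℝ} {x : X} (h : u =ᶠ[𝓝 x] fun _ => 0) : dd (d := m) u x = 0 := by
  unfold dd
  rw [h.mfderiv_eq]
  exact mfderiv_const

lemma tan_inv (h : Ch θ ψ Ω) {x : X} (hx : x ∈ θ '' Ω) (v : E m) :
    (mfderiv (𝓡 m) (𝓡 m) θ (ψ x) (mfderiv (𝓡 m) (𝓡 m) ψ x v) : E m) = v := by
  have hψx : ψ x ∈ Ω := by
    obtain ⟨p, hp, rfl⟩ := hx
    rw [h.inv p hp]
    exact hp
  have h1 : MDifferentiableAt (𝓡 m) (𝓡 m) θ (ψ x) :=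
    (h.sm.contMDiffAt (h.open1.mem_nhds hψx)).mdifferentiableAt (by simp)
  have h2 : MDifferentiableAt (𝓡 m) (𝓡 m) ψ x :=
    (h.sm2.contMDiffAt (h.open2.mem_nhds hx)).mdifferentiableAt (by simp)
  have h3 := mfderiv_comp x h1 h2
  have h4 : θ ∘ ψ =ᶠ[𝓝 x] id := by
    filter_upwards [h.open2.mem_nhds hx] with y hy
    obtain ⟨p, hp, rfl⟩ := hy
    show θ (ψ (θ p)) = θ p
    rw [h.inv p hp]
  rw [h4.mfderiv_eq, mfderiv_id] at h3
  have h5 := congrArg (fun L => (L v : E m)) h3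
  exact h5.symm

lemma tan_surj (h : Ch θ ψ Ω) {p : E m} (hp : p ∈ Ω) (v : TangentSpace (𝓡 m) (θ p)) :
    ∃ w : E m, mfderiv (𝓡 m) (𝓡 m) θ p w = v := by
  have h1 := tan_inv h (mem_image_of_mem θ hp) v
  have h2 : ∀ p' : E m, ψ (θ p) = p' → ∃ w : E m,
      (mfderiv (𝓡 m) (𝓡 m) θ p' w : E m) = v := by
    intro p' hp'
    subst hp'
    exact ⟨_, h1⟩
  exact h2 p (h.inv p hp)

end ext

section lin

variable {n : ℕ}

/-- the first two basis vectors -/
abbrev e0 : E (n + 2) := EuclideanSpace.single 0 (1 : ℝ)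
/-- the first two basis vectors -/
abbrev e1 : E (n + 2) := EuclideanSpace.single (Fin.succ 0) (1 : ℝ)

lemma two_exp (B : (E (n + 2)) [⋀^Fin 2]→L[ℝ] ℝ) (w w' : E (n + 2))
    (hw : ∀ j : Fin n, w j.succ.succ = 0) (hw' : ∀ j : Fin n, w' j.succ.succ = 0) :
    B ![w, w'] = (w 0 * w' (Fin.succ 0) - w (Fin.succ 0) * w' 0) * B ![e0, e1] := by
  have hexp : ∀ w : E (n + 2), (∀ j : Fin n, w j.succ.succ = 0) →
      w = w 0 • (e0 : E (n + 2)) + w (Fin.succ 0) • (e1 : E (n + 2)) := by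
    intro w hw
    ext k
    refine Fin.cases ?_ (fun k => Fin.cases ?_ (fun k => ?_) k) k
    · simp [Pi.single_apply]
    · simp [Pi.single_apply]
    · rw [hw]
      simp [Pi.single_apply, Fin.ext_iff]
  have h00 : ∀ x : E (n + 2), B ![x, x] = 0 := fun x =>
    B.map_eq_zero_of_eq ![x, x] (i := 0) (j := 1) rfl (by simp)
  conv_lhs => rw [hexp w hw, hexp w' hw']
  rw [B_left, B_left_smul, B_left_smul, B_right, B_right, B_right_smul, B_right_smul,
    B_right_smul, B_right_smul, h00, h00, B_swap B e0 e1]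
  ring

/-- the projection to the first two coordinates -/
def pz : E (n + 2) →L[ℝ] E 2 := LinearMap.toContinuousLinearMap
  { toFun := fun p => WithLp.toLp 2 ![p 0, p (Fin.succ 0)]
    map_add' := fun p q => by
      ext i
      fin_cases i <;> rfl
    map_smul' := fun c p => by
      ext i
      fin_cases i <;> rfl }

lemma pz_0 (p : E (n + 2)) : (pz p) 0 = p 0 := rfl
lemma pz_1 (p : E (n + 2)) : (pz p) 1 = p (Fin.succ 0) := rfl

/-- the slice -/
def jn (b : Fin n → ℝ) (z : E 2) : E (n + 2) :=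
  WithLp.toLp 2 (Fin.cons (z 0) (Fin.cons (z 1) b) : Fin (n + 2) → ℝ)

lemma jn_0 (b : Fin n → ℝ) (z : E 2) : (jn b z) 0 = z 0 := rfl
lemma jn_1 (b : Fin n → ℝ) (z : E 2) : (jn b z) (Fin.succ 0) = z 1 := rfl
lemma jn_s (b : Fin n → ℝ) (z : E 2) (j : Fin n) : (jn b z) j.succ.succ = b j := rfl

lemma jn_smooth (b : Fin n → ℝ) : ContDiff ℝ ∞ (jn b) := by
  rw [contDiff_euclidean]
  intro k
  refine Fin.cases ?_ (fun k => Fin.cases ?_ (fun k => ?_) k) k
  · exact (EuclideanSpace.proj 0 : E 2 →L[ℝ] ℝ).contDiff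
  · exact (EuclideanSpace.proj 1 : E 2 →L[ℝ] ℝ).contDiff
  · exact contDiff_const

lemma pz_jn (b : Fin n → ℝ) (z : E 2) : pz (jn b z) = z := by
  ext i
  fin_cases i <;> rfl

lemma jn_pz (b : Fin n → ℝ) (p : E (n + 2)) (hp : ∀ j : Fin n, p j.succ.succ = b j) :
    jn b (pz p) = p := by
  ext k
  refine Fin.cases ?_ (fun k => Fin.cases ?_ (fun k => ?_) k) k
  · rfl
  · rfl
  · exact (hp k).symm

lemma jn_dist (b : Fin n → ℝ) (z z' : E 2) : dist (jn b z) (jn b z') = dist z z' := by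
  rw [EuclideanSpace.dist_eq, EuclideanSpace.dist_eq, Fin.sum_univ_succ, Fin.sum_univ_succ,
    Fin.sum_univ_two]
  congr 1
  rw [jn_0, jn_0, jn_1, jn_1]
  simp [jn_s]

lemma jn_ball {b : Fin n → ℝ} {z z₁ : E 2} {s : ℝ} :
    jn b z ∈ Metric.ball (jn b z₁) s ↔ z ∈ Metric.ball z₁ s := by
  rw [Metric.mem_ball, Metric.mem_ball, jn_dist]

lemma pz_dist (p p' : E (n + 2)) : dist (pz p) (pz p') ≤ dist p p' := by
  have hL : dist (pz p) (pz p') = √(dist (p 0) (p' 0) ^ 2 +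
      dist (p (Fin.succ 0)) (p' (Fin.succ 0)) ^ 2) := by
    rw [EuclideanSpace.dist_eq, Fin.sum_univ_two]
    rfl
  rw [hL, EuclideanSpace.dist_eq, Fin.sum_univ_succ, Fin.sum_univ_succ]
  apply Real.sqrt_le_sqrt
  have : 0 ≤ ∑ i : Fin n, dist (p i.succ.succ) (p' i.succ.succ) ^ 2 :=
    Finset.sum_nonneg fun i _ => by positivity
  linarith

end lin

end Pool.Agent.L7h76.OG
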