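import Mathlib
import Pool.Agent.L7h76.OG.Ext
import Pool.Agent.Y484.SY.Gen

/-!
Straightening data: the linear relation on the fibres, cut-offs, closedness of pulled back
two-forms (part `S_LOC` of the project OF).
-/

set_option autoImplicit false
set_option linter.unusedSectionVars false

open Set Filter Topology
open scoped Manifold ContDiff

noncomputable section

namespace Pool.Agent.L7h76.OG

open Pool.Agent.Y501.SY
open Pool.Agent.N13.TL

section data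

variable {n : ℕ} {X : Type} [TopologicalSpace X] [ChartedSpace (E (n + 2)) X]

/-- straightening data -/
structure Dat (J : End (n + 2) X) (τ : Form (n + 2) X 2) (F : Fin n → X → ℝ)
    (θ : E (n + 2) → X) (ψ : X → E (n + 2)) (Ω : Set (E (n + 2))) : Prop where
  ch : Ch θ ψ Ω
  smτ : IsSmooth τ
  tame : ∀ x, TamesAt τ J x
  smF : ∀ j, SmoothFun (d := n + 2) (F j)
  str : ∀ p ∈ Ω, ∀ j, F j (θ p) = p j.succ.succ
  invJ : ∀ x ∈ θ '' Ω, ∀ v : TangentSpace (𝓡 (n + 2)) x, (∀ j, dd (d := n + 2) (F j) x v = 0) →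
    ∀ j, dd (d := n + 2) (F j) x (J x v) = 0

/-- the value on the first two coordinate fields -/
def tz (θ : E (n + 2) → X) (ρ : Form (n + 2) X 2) (p : E (n + 2)) : ℝ := pb θ ρ p ![e0, e1]

variable {J : End (n + 2) X} {τ : Form (n + 2) X 2} {F : Fin n → X → ℝ}
  {θ : E (n + 2) → X} {ψ : X → E (n + 2)} {Ω : Set (E (n + 2))}

lemma tz_smooth (h : Ch θ ψ Ω) {ρ : Form (n + 2) X 2} (hρ : IsSmooth ρ) :
    ContDiffOn ℝ ∞ (tz θ ρ) Ω :=
  (ContinuousAlternatingMap.apply ℝ (E (n + 2)) ℝ ![e0, e1]).contDiff.comp_contDiffOn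
    (hρ Ω θ h.open1 h.sm)

lemma tz_zero {ρ : Form (n + 2) X 2} {p : E (n + 2)} (h : ρ (θ p) = 0) : tz θ ρ p = 0 := by
  unfold tz pb
  rw [h]
  rfl

variable [IsManifold (𝓡 (n + 2)) ∞ X]

lemma ddF (h : Dat J τ F θ ψ Ω) {p : E (n + 2)} (hp : p ∈ Ω) (j : Fin n) (w : E (n + 2)) :
    dd (d := n + 2) (F j) (θ p) (mfderiv (𝓡 (n + 2)) (𝓡 (n + 2)) θ p w) = w j.succ.succ := by
  rw [Pool.Agent.Y484.SY.dd_comp h.ch.open1 h.ch.sm (h.smF j) hp w]
  have h1 : F j ∘ θ =ᶠ[𝓝 p] (EuclideanSpace.proj j.succ.succ : E (n + 2) →L[ℝ] ℝ) := by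
    filter_upwards [h.ch.open1.mem_nhds hp] with y hy
    exact h.str y hy j
  rw [h1.fderiv_eq, ContinuousLinearMap.fderiv]
  rfl

lemma mf_inj (h : Ch θ ψ Ω) {p : E (n + 2)} (hp : p ∈ Ω) :
    Function.Injective (mfderiv (𝓡 (n + 2)) (𝓡 (n + 2)) θ p) := by
  let L : E (n + 2) →L[ℝ] E (n + 2) := mfderiv (𝓡 (n + 2)) (𝓡 (n + 2)) θ p
  have h1 : Function.Surjective (L : E (n + 2) →ₗ[ℝ] E (n + 2)) := fun v => tan_surj h hp v
  have h2 := LinearMap.injective_iff_surjective.2 h1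
  exact h2

/-- the linear relation on the fibres -/
lemma key (h : Dat J τ F θ ψ Ω) {p : E (n + 2)} (hp : p ∈ Ω)
    (v : TangentSpace (𝓡 (n + 2)) (θ p)) (hv : ∀ j, dd (d := n + 2) (F j) (θ p) v = 0)
    (ρ : Form (n + 2) X 2) : q ρ J (θ p) v * tz θ τ p = q τ J (θ p) v * tz θ ρ p := by
  obtain ⟨w, hw⟩ := tan_surj h.ch hp v
  obtain ⟨w', hw'⟩ := tan_surj h.ch hp (J (θ p) v)
  have h0 : ∀ j : Fin n, w j.succ.succ = 0 := fun j => by
    rw [← ddF h hp j w, hw]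
    exact hv j
  have h0' : ∀ j : Fin n, w' j.succ.succ = 0 := fun j => by
    rw [← ddF h hp j w', hw']
    exact h.invJ _ (mem_image_of_mem θ hp) v hv j
  have h1 : ∀ ρ : Form (n + 2) X 2, q ρ J (θ p) v = pb θ ρ p ![w, w'] := by
    intro ρ
    have h2 : (fun i => mfderiv (𝓡 (n + 2)) (𝓡 (n + 2)) θ p ((![w, w'] : Fin 2 → E (n + 2)) i))
        = (![v, J (θ p) v] : Fin 2 → TangentSpace (𝓡 (n + 2)) (θ p)) := by
      funext i
      fin_cases i
      · exact hw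
      · exact hw'
    exact (congrArg (ρ (θ p)) h2).symm
  rw [h1, h1, two_exp _ w w' h0 h0', two_exp _ w w' h0 h0']
  unfold tz
  ring

lemma tz_ne (h : Dat J τ F θ ψ Ω) {p : E (n + 2)} (hp : p ∈ Ω) : tz θ τ p ≠ 0 := by
  intro h0
  set v : TangentSpace (𝓡 (n + 2)) (θ p) := mfderiv (𝓡 (n + 2)) (𝓡 (n + 2)) θ p e0 with hv
  have hv0 : v ≠ 0 := by
    intro h1
    have h2 : mfderiv (𝓡 (n + 2)) (𝓡 (n + 2)) θ p e0
        = mfderiv (𝓡 (n + 2)) (𝓡 (n + 2)) θ p 0 := by rw [map_zero]; exact h1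
    have h3 : (e0 : E (n + 2)) = 0 := mf_inj h.ch hp h2
    have h4 := congrArg (fun v : E (n + 2) => v 0) h3
    simp at h4
  have hvF : ∀ j, dd (d := n + 2) (F j) (θ p) v = 0 := by
    intro j
    rw [hv, ddF h hp j]
    simp [Fin.ext_iff]
  obtain ⟨w, hw⟩ := tan_surj h.ch hp v
  obtain ⟨w', hw'⟩ := tan_surj h.ch hp (J (θ p) v)
  have h0w : ∀ j : Fin n, w j.succ.succ = 0 := fun j => by
    rw [← ddF h hp j w, hw]
    exact hvF j
  have h0' : ∀ j : Fin n, w' j.succ.succ = 0 := fun j => by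
    rw [← ddF h hp j w', hw']
    exact h.invJ _ (mem_image_of_mem θ hp) v hvF j
  have h2 : (fun i => mfderiv (𝓡 (n + 2)) (𝓡 (n + 2)) θ p ((![w, w'] : Fin 2 → E (n + 2)) i))
      = (![v, J (θ p) v] : Fin 2 → TangentSpace (𝓡 (n + 2)) (θ p)) := by
    funext i
    fin_cases i
    · exact hw
    · exact hw'
  have h3 : q τ J (θ p) v = pb θ τ p ![w, w'] := (congrArg (τ (θ p)) h2).symm
  have h4 := h.tame (θ p) v hv0
  have h5 : 0 < q τ J (θ p) v := h4
  rw [h3, two_exp _ w w' h0w h0'] at h5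
  unfold tz at h0
  rw [h0, mul_zero] at h5
  exact lt_irrefl _ h5

/-- forms `df ∧ dg` in the straightening chart -/
lemma tz_dfdg (h : Ch θ ψ Ω) {f g : X → ℝ} (hf : SmoothFun (d := n + 2) f)
    (hg : SmoothFun (d := n + 2) g) {p : E (n + 2)} (hp : p ∈ Ω) {f' g' : E (n + 2) → ℝ}
    (hf' : f ∘ θ =ᶠ[𝓝 p] f') (hg' : g ∘ θ =ᶠ[𝓝 p] g') :
    tz θ (dfdg (d := n + 2) f g) p
      = fderiv ℝ f' p e0 * fderiv ℝ g' p e1 - fderiv ℝ f' p e1 * fderiv ℝ g' p e0 := by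
  unfold tz
  rw [Pool.Agent.Y484.SY.pb_dfdg h.open1 h.sm hf hg hp, hf'.fderiv_eq, hg'.fderiv_eq,
    wedge_apply]
  rfl

lemma tz_hdfdg (h : Ch θ ψ Ω) {k f g : X → ℝ} (hf : SmoothFun (d := n + 2) f)
    (hg : SmoothFun (d := n + 2) g) {p : E (n + 2)} (hp : p ∈ Ω) {f' g' : E (n + 2) → ℝ}
    (hf' : f ∘ θ =ᶠ[𝓝 p] f') (hg' : g ∘ θ =ᶠ[𝓝 p] g') :
    tz θ (hdfdg (d := n + 2) k f g) p
      = k (θ p) *
        (fderiv ℝ f' p e0 * fderiv ℝ g' p e1 - fderiv ℝ f' p e1 * fderiv ℝ g' p e0) := by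
  have h1 : tz θ (hdfdg (d := n + 2) k f g) p = k (θ p) * tz θ (dfdg (d := n + 2) f g) p := rfl
  rw [h1, tz_dfdg h hf hg hp hf' hg']

lemma ex_congr (h : Ch θ ψ Ω) {a a' : E (n + 2) → ℝ} {p : E (n + 2)} (hp : p ∈ Ω)
    (haa : a =ᶠ[𝓝 p] a') : ex θ ψ Ω a =ᶠ[𝓝 (θ p)] ex θ ψ Ω a' := by
  have h1 : ContinuousAt ψ (θ p) :=
    (h.sm2.contMDiffAt (h.open2.mem_nhds (mem_image_of_mem θ hp))).continuousAt
  have h2 : Tendsto ψ (𝓝 (θ p)) (𝓝 p) := by
    have h3 := h1.tendsto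
    rw [h.inv p hp] at h3
    exact h3
  filter_upwards [h2.eventually haa] with y hy
  unfold ex
  rw [hy]

lemma ex_comp (h : Ch θ ψ Ω) (a : E (n + 2) → ℝ) {p : E (n + 2)} (hp : p ∈ Ω) :
    ex θ ψ Ω a ∘ θ =ᶠ[𝓝 p] a := by
  filter_upwards [h.open1.mem_nhds hp] with y hy
  exact ex_at h a hy

end data

/-- cut-off functions -/
lemma cut {m : ℕ} (c : E m) {s S : ℝ} (hs : 0 < s) (hS : s < S) :
    ∃ χ : E m → ℝ, ContDiff ℝ ∞ χ ∧ HasCompactSupport χ ∧ tsupport χ ⊆ Metric.ball c S ∧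
      (∀ p ∈ Metric.ball c s, χ =ᶠ[𝓝 p] fun _ => 1) ∧ ∀ p, 0 ≤ χ p := by
  let f : ContDiffBump c := ⟨s, (s + S) / 2, hs, by linarith⟩
  refine ⟨f, f.contDiff, f.hasCompactSupport, ?_, fun p hp => f.eventuallyEq_one_of_mem_ball hp,
    fun p => f.nonneg⟩
  rw [f.tsupport_eq]
  exact Metric.closedBall_subset_ball (by show (s + S) / 2 < S; linarith)

/-- pull-backs of two-forms of the plane are closed -/
lemma closed2 {m : ℕ} {U : Set (E m)} (hU : IsOpen U) {A B : E m → ℝ} (hA : ContDiffOn ℝ ∞ A U)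
    (hB : ContDiffOn ℝ ∞ B U) {Φ : E 2 → ℝ} (hΦ : ContDiff ℝ ∞ Φ) {p : E m} (hp : p ∈ U) :
    extDeriv (fun p => Φ (WithLp.toLp 2 ![A p, B p]) • wedge (fderiv ℝ A p) (fderiv ℝ B p)) p
      = 0 := by
  have hdA : DifferentiableAt ℝ A p := (hA.contDiffAt (hU.mem_nhds hp)).differentiableAt (by simp)
  have hdB : DifferentiableAt ℝ B p := (hB.contDiffAt (hU.mem_nhds hp)).differentiableAt (by simp)
  have hω : ContDiffOn ℝ ∞ (fun p => wedge (fderiv ℝ A p) (fderiv ℝ B p)) U :=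
    Pool.Agent.Y484.SY.smooth_wedge (hA.fderiv_of_isOpen hU (by simp))
      (hB.fderiv_of_isOpen hU (by simp))
  have hdω : DifferentiableAt ℝ (fun p => wedge (fderiv ℝ A p) (fderiv ℝ B p)) p :=
    (hω.contDiffAt (hU.mem_nhds hp)).differentiableAt (by simp)
  have hcl : extDeriv (fun p => wedge (fderiv ℝ A p) (fderiv ℝ B p)) p = 0 := by
    have h1 : (fun p => wedge (fderiv ℝ A p) (fderiv ℝ B p)) =ᶠ[𝓝 p]
        extDeriv (fun p => A p • one (fderiv ℝ B p)) := by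
      filter_upwards [hU.mem_nhds hp] with y hy
      exact (Pool.Agent.Y484.SY.ext_one hU hA hB hy).symm
    have h2 : ContDiffOn ℝ ∞ (fun p => A p • one (fderiv ℝ B p)) U :=
      hA.smul (Pool.Agent.Y484.SY.smooth_one (hB.fderiv_of_isOpen hU (by simp)))
    rw [h1.extDeriv_eq, extDeriv_extDeriv_apply (r := ∞) (h2.contDiffAt (hU.mem_nhds hp))
      Pool.Agent.Y484.SY.two_le]
  have hAB : HasFDerivAt (fun p => (WithLp.toLp 2 ![A p, B p] : E 2))
      (fderiv ℝ (fun p => (WithLp.toLp 2 ![A p, B p] : E 2)) p) p := by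
    refine DifferentiableAt.hasFDerivAt ?_
    rw [differentiableAt_euclidean]
    intro i
    fin_cases i
    · exact hdA
    · exact hdB
  have hc0 : ∀ v, (fderiv ℝ (fun p => (WithLp.toLp 2 ![A p, B p] : E 2)) p v) 0
      = fderiv ℝ A p v := by
    intro v
    have h1 := (EuclideanSpace.proj 0 : E 2 →L[ℝ] ℝ).hasFDerivAt.comp p hAB
    have h2 : fderiv ℝ A p = _ := h1.fderiv
    rw [h2]
    rfl
  have hc1 : ∀ v, (fderiv ℝ (fun p => (WithLp.toLp 2 ![A p, B p] : E 2)) p v) 1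
      = fderiv ℝ B p v := by
    intro v
    have h1 := (EuclideanSpace.proj 1 : E 2 →L[ℝ] ℝ).hasFDerivAt.comp p hAB
    have h2 : fderiv ℝ B p = _ := h1.fderiv
    rw [h2]
    rfl
  set f : E m → ℝ := fun p => Φ (WithLp.toLp 2 ![A p, B p]) with hf
  set z : E 2 := WithLp.toLp 2 ![A p, B p] with hz
  have hfd : HasFDerivAt f _ p :=
    (hΦ.differentiable (by simp) z).hasFDerivAt.comp p hAB
  have hdf : ∀ v, fderiv ℝ f p v = fderiv ℝ Φ z (EuclideanSpace.single 0 1) * fderiv ℝ A p v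
      + fderiv ℝ Φ z (EuclideanSpace.single 1 1) * fderiv ℝ B p v := by
    intro v
    rw [hfd.fderiv]
    have h1 : (fderiv ℝ (fun p => (WithLp.toLp 2 ![A p, B p] : E 2)) p v : E 2)
        = fderiv ℝ A p v • EuclideanSpace.single 0 1
          + fderiv ℝ B p v • EuclideanSpace.single 1 1 := by
      ext i
      fin_cases i
      · show (fderiv ℝ (fun p => (WithLp.toLp 2 ![A p, B p] : E 2)) p v) 0 = _
        rw [hc0]
        simp
      · show (fderiv ℝ (fun p => (WithLp.toLp 2 ![A p, B p] : E 2)) p v) 1 = _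
        rw [hc1]
        simp
    rw [ContinuousLinearMap.comp_apply, h1, map_add, map_smul, map_smul, smul_eq_mul, smul_eq_mul]
    ring
  unfold extDeriv at hcl ⊢
  rw [fderiv_fun_smul hfd.differentiableAt hdω,
    ContinuousAlternatingMap.alternatizeUncurryFin_add,
    ContinuousAlternatingMap.alternatizeUncurryFin_smul, hcl, smul_zero, zero_add]
  ext v
  rw [ContinuousAlternatingMap.alternatizeUncurryFin_apply, Fin.sum_univ_three]
  simp only [ContinuousLinearMap.smulRight_apply, ContinuousAlternatingMap.smul_apply,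
    wedge_apply, hdf, smul_eq_mul]
  simp [Fin.removeNth, Fin.succAbove]
  ring

end Pool.Agent.L7h76.OG
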