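import Mathlib
import Pool.Agent.L7h76.OG.Pre
import Pool.Agent.L7h76.OF.ST
import Pool.Agent.L7h89.OF.P_TI

/-!
Local product structure of closed currents near a regular point (part `S_LOC` of the project OF).
-/

set_option autoImplicit false
set_option linter.unusedSectionVars false
set_option linter.unusedSimpArgs false

open Set Filter Topology MeasureTheory
open scoped Manifold ContDiff

noncomputable section

namespace Pool.Agent.L7h76.OG

open Pool.Agent.Y501.SY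
open Pool.Agent.N13.TL
open Pool.Agent.L7h49.OG
open Pool.Agent.L7h49.TS (qq)
open Pool.Agent.R772 (ExactF)
open Pool.Agent.L7h76.OF (glob_supp fderiv_zero_of)

section

variable {n : ℕ} {X : Type} [TopologicalSpace X] [ChartedSpace (E (n + 2)) X]
  [IsManifold (𝓡 (n + 2)) ∞ X]
variable {J : End (n + 2) X} {τ : Form (n + 2) X 2} {F : Fin n → X → ℝ}
  {θ : E (n + 2) → X} {ψ : X → E (n + 2)} {Ω : Set (E (n + 2))}

/-- cut-off linear coordinates -/
def zl (θ : E (n + 2) → X) (ψ : X → E (n + 2)) (Ω : Set (E (n + 2))) (χ : E (n + 2) → ℝ)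
    (l : E (n + 2) →L[ℝ] ℝ) : X → ℝ := ex θ ψ Ω (fun p => χ p * l p)

/-- the map to the plane -/
def Gz (θ : E (n + 2) → X) (ψ : X → E (n + 2)) (Ω : Set (E (n + 2))) (χ : E (n + 2) → ℝ)
    (x : X) : E 2 :=
  WithLp.toLp 2 ![zl θ ψ Ω χ (EuclideanSpace.proj 0) x,
    zl θ ψ Ω χ (EuclideanSpace.proj (Fin.succ 0)) x]

/-- the weight -/
def Wz (θ : E (n + 2) → X) (ψ : X → E (n + 2)) (Ω : Set (E (n + 2))) (χ : E (n + 2) → ℝ)
    (τ : Form (n + 2) X 2) : X → ℝ := ex θ ψ Ω (fun p => χ p * (tz θ τ p)⁻¹)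

lemma zl_smooth [T2Space X] (h : Ch θ ψ Ω) {χ : E (n + 2) → ℝ} (hχ : ContDiff ℝ ∞ χ)
    (hc : HasCompactSupport χ) (hs : tsupport χ ⊆ Ω) (l : E (n + 2) →L[ℝ] ℝ) :
    SmoothFun (d := n + 2) (zl θ ψ Ω χ l) :=
  ex_smooth h (hχ.mul l.contDiff) hc.mul_right ((tsupport_mul_subset_left).trans hs)

lemma zl_at (h : Ch θ ψ Ω) {χ : E (n + 2) → ℝ} {p : E (n + 2)} (hp : p ∈ Ω)
    (hχ : χ =ᶠ[𝓝 p] fun _ => 1) (l : E (n + 2) →L[ℝ] ℝ) :
    zl θ ψ Ω χ l ∘ θ =ᶠ[𝓝 p] l := by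
  refine (ex_comp h _ hp).trans ?_
  filter_upwards [hχ] with y hy
  rw [hy, one_mul]

lemma Gz_at (h : Ch θ ψ Ω) {χ : E (n + 2) → ℝ} {p : E (n + 2)} (hp : p ∈ Ω) (hχ : χ p = 1) :
    Gz θ ψ Ω χ (θ p) = pz p := by
  have h1 : ∀ l, zl θ ψ Ω χ l (θ p) = l p := fun l => by
    unfold zl
    rw [ex_at h _ hp, hχ, one_mul]
  unfold Gz
  rw [h1, h1]
  rfl

lemma Gz_cont [T2Space X] (h : Ch θ ψ Ω) {χ : E (n + 2) → ℝ} (hχ : ContDiff ℝ ∞ χ)
    (hc : HasCompactSupport χ) (hs : tsupport χ ⊆ Ω) : Continuous (Gz θ ψ Ω χ) := by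
  have h0 := (zl_smooth h hχ hc hs (EuclideanSpace.proj 0)).continuous
  have h1 := (zl_smooth h hχ hc hs (EuclideanSpace.proj (Fin.succ 0))).continuous
  refine (PiLp.continuous_toLp 2 _).comp (continuous_pi fun i => ?_)
  fin_cases i
  · exact h0
  · exact h1

lemma Wz_at (h : Ch θ ψ Ω) {χ : E (n + 2) → ℝ} {p : E (n + 2)} (hp : p ∈ Ω) :
    Wz θ ψ Ω χ τ (θ p) = χ p * (tz θ τ p)⁻¹ := ex_at h _ hp

lemma Wz_smooth [T2Space X] (D : Dat J τ F θ ψ Ω) {χ : E (n + 2) → ℝ} (hχ : ContDiff ℝ ∞ χ)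
    (hc : HasCompactSupport χ) (hs : tsupport χ ⊆ Ω) :
    SmoothFun (d := n + 2) (Wz θ ψ Ω χ τ) := by
  have h1 : tsupport (fun p => χ p * (tz θ τ p)⁻¹) ⊆ Ω := (tsupport_mul_subset_left).trans hs
  refine ex_smooth D.ch (glob_supp D.ch.open1 ?_ h1) hc.mul_right h1
  exact hχ.contDiffOn.mul ((tz_smooth D.ch D.smτ).inv fun p hp => tz_ne D hp)

/-- the integrand on the carrier -/
lemma keyK (D : Dat J τ F θ ψ Ω) {b : Fin n → ℝ} {z₁ : E 2} {s S : ℝ} (hsS : s < S)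
    {χ₁ χ₂ : E (n + 2) → ℝ} (hball : Metric.ball (jn b z₁) S ⊆ Ω)
    (h₁ : ∀ p ∈ Metric.ball (jn b z₁) S, χ₁ p = 1)
    (h₂ : ∀ p ∈ Metric.ball (jn b z₁) s, χ₂ p = 1)
    (h₂' : ∀ p, p ∉ Metric.ball (jn b z₁) S → χ₂ p = 0)
    {a : E 2 → ℝ} {ρ : Form (n + 2) X 2} (ha : ∀ z, z ∉ Metric.ball z₁ s → a z = 0)
    (hρ1 : ∀ z ∈ Metric.ball z₁ s, tz θ ρ (jn b z) = a z) {x : X}
    {v : TangentSpace (𝓡 (n + 2)) x}
    (hρ2 : x ∉ θ '' Metric.ball (jn b z₁) s → ρ x = 0)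
    (hv1 : q τ J x v = 1) (hxb : x ∈ θ '' Ω → ∀ j, F j x = b j)
    (hxv : x ∈ θ '' Ω → ∀ j, dd (d := n + 2) (F j) x v = 0) :
    q ρ J x v = a (Gz θ ψ Ω χ₁ x) * Wz θ ψ Ω χ₂ τ x := by
  have hsub : Metric.ball (jn b z₁) s ⊆ Metric.ball (jn b z₁) S :=
    Metric.ball_subset_ball hsS.le
  by_cases hx : x ∈ θ '' Ω
  · obtain ⟨p, hp, rfl⟩ := hx
    have hpb : jn b (pz p) = p := jn_pz b p fun j => by
      rw [← D.str p hp j]
      exact hxb (mem_image_of_mem θ hp) j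
    have hk := key D hp v (hxv (mem_image_of_mem θ hp)) ρ
    have ht := tz_ne D hp
    rw [hv1, one_mul] at hk
    by_cases hz : pz p ∈ Metric.ball z₁ s
    · have hps : p ∈ Metric.ball (jn b z₁) s := by
        rw [← hpb]
        exact jn_ball.2 hz
      rw [Gz_at D.ch hp (h₁ p (hsub hps)), Wz_at D.ch hp, h₂ p hps, ← hρ1 _ hz, hpb, ← hk]
      field_simp
    · have hps : p ∉ Metric.ball (jn b z₁) s := by
        rw [← hpb]
        exact fun h => hz (jn_ball.1 h)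
      have h0 : ρ (θ p) = 0 := by
        refine hρ2 ?_
        rintro ⟨p', hp', he⟩
        have h3 : p' = p := by
          rw [← D.ch.inv p' (hball (hsub hp')), he, D.ch.inv p hp]
        exact hps (h3 ▸ hp')
      have h4 : q ρ J (θ p) v = 0 := by
        show ρ (θ p) ![v, J (θ p) v] = 0
        rw [h0]
        rfl
      rw [h4]
      by_cases hS : p ∈ Metric.ball (jn b z₁) S
      · rw [Gz_at D.ch hp (h₁ p hS), ha _ hz, zero_mul]
      · rw [Wz_at D.ch hp, h₂' p hS, zero_mul, mul_zero]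
  · have h0 : ρ x = 0 := by
      refine hρ2 fun hx' => hx (image_mono (hsub.trans hball) hx')
    have h4 : q ρ J x v = 0 := by
      show ρ x ![v, J x v] = 0
      rw [h0]
      rfl
    have h5 : Wz θ ψ Ω χ₂ τ x = 0 := ex_off hx
    rw [h4, h5, mul_zero]

lemma pz_e0 : pz (e0 : E (n + 2)) = EuclideanSpace.single 0 1 := by
  ext i
  fin_cases i
  · show (e0 : E (n + 2)) 0 = _
    simp
  · show (e0 : E (n + 2)) (Fin.succ 0) = _
    simp

lemma pz_e1 : pz (e1 : E (n + 2)) = EuclideanSpace.single 1 1 := by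
  ext i
  fin_cases i
  · show (e1 : E (n + 2)) 0 = _
    simp [Fin.ext_iff]
  · show (e1 : E (n + 2)) (Fin.succ 0) = _
    simp

lemma plane_exp (v : E 2) : v = v 0 • (EuclideanSpace.single 0 1 : E 2)
    + v 1 • (EuclideanSpace.single 1 1 : E 2) := by
  ext i
  fin_cases i
  · simp
  · simp

lemma fderiv_pz {g : E 2 → ℝ} (hg : ContDiff ℝ ∞ g) (p w : E (n + 2)) :
    fderiv ℝ (fun p => g (pz p)) p w = fderiv ℝ g (pz p) (pz w) := by
  have h1 : HasFDerivAt (fun p : E (n + 2) => g (pz p)) _ p :=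
    (hg.differentiable (by simp) (pz p)).hasFDerivAt.comp p pz.hasFDerivAt
  rw [h1.fderiv]
  rfl

lemma wedge_zero_left {V : Type} [NormedAddCommGroup V] [NormedSpace ℝ V] (c : V →L[ℝ] ℝ) :
    wedge (0 : V →L[ℝ] ℝ) c = 0 := by
  ext w
  rw [wedge_apply]
  simp

omit [IsManifold (𝓡 (n + 2)) ∞ X] in
lemma dfdg_zero {f g : X → ℝ} {x : X} (h : dd (d := n + 2) f x = 0) :
    dfdg (d := n + 2) f g x = 0 := by
  have h1 : (dd (d := n + 2) f x : E (n + 2) →L[ℝ] ℝ) = 0 := h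
  have h2 : dfdg (d := n + 2) f g x = wedge (V := E (n + 2)) (dd (d := n + 2) f x)
    (dd (d := n + 2) g x) := rfl
  rw [h2]
  exact (congrArg (fun L : E (n + 2) →L[ℝ] ℝ => wedge L
    (dd (d := n + 2) g x : E (n + 2) →L[ℝ] ℝ)) h1).trans (wedge_zero_left _)

/-- the translation invariance -/
lemma inv_TI [T2Space X] [MeasurableSpace (TangentBundle (𝓡 (n + 2)) X)]
    (D : Dat J τ F θ ψ Ω) {b : Fin n → ℝ} {z₁ : E 2} {s S : ℝ} (hsS : s < S)
    {χ₁ χ₂ : E (n + 2) → ℝ} (hχ₁ : ContDiff ℝ ∞ χ₁) (hc₁ : HasCompactSupport χ₁)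
    (hs₁ : tsupport χ₁ ⊆ Ω) (hχ₂ : ContDiff ℝ ∞ χ₂) (hc₂ : HasCompactSupport χ₂)
    (hs₂ : tsupport χ₂ ⊆ Metric.ball (jn b z₁) S)
    (hball : Metric.ball (jn b z₁) S ⊆ Ω)
    (h₁ : ∀ p ∈ Metric.ball (jn b z₁) S, χ₁ =ᶠ[𝓝 p] fun _ => 1)
    (h₂ : ∀ p ∈ Metric.ball (jn b z₁) s, χ₂ =ᶠ[𝓝 p] fun _ => 1)
    {K : Set (TangentBundle (𝓡 (n + 2)) X)} {μ : Measure (TangentBundle (𝓡 (n + 2)) X)}
    (hμ : CC J K μ) (hK1 : ∀ y ∈ K, qq τ J y = 1)
    (hK2 : ∀ y ∈ K, y.proj ∈ θ '' Ω → ∀ j, F j y.proj = b j ∧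
      dd (d := n + 2) (F j) y.proj y.snd = 0)
    {g : E 2 → ℝ} (hg : ContDiff ℝ ∞ g) (hgs : tsupport g ⊆ Metric.ball z₁ s) (v : E 2) :
    ∫ y, fderiv ℝ g (Gz θ ψ Ω χ₁ y.proj) v * Wz θ ψ Ω χ₂ τ y.proj ∂μ = 0 := by
  set l : E (n + 2) →L[ℝ] ℝ := v 0 • (EuclideanSpace.proj (Fin.succ 0) : E (n + 2) →L[ℝ] ℝ)
    - v 1 • (EuclideanSpace.proj 0 : E (n + 2) →L[ℝ] ℝ) with hl
  have hl0 : l e0 = - v 1 := by
    rw [hl]
    simp
  have hl1 : l e1 = v 0 := by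
    rw [hl]
    simp [Fin.ext_iff]
  set a : E (n + 2) → ℝ := fun p => g (pz p) * χ₂ p with ha
  have has : ContDiff ℝ ∞ a := (hg.comp pz.contDiff).mul hχ₂
  have hac : HasCompactSupport a := hc₂.mul_left
  have hat : tsupport a ⊆ Ω := (tsupport_mul_subset_right).trans (hs₂.trans hball)
  set u : X → ℝ := ex θ ψ Ω a with hu
  have hus : SmoothFun (d := n + 2) u := ex_smooth D.ch has hac hat
  have hζs : SmoothFun (d := n + 2) (zl θ ψ Ω χ₁ l) := zl_smooth D.ch hχ₁ hc₁ hs₁ l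
  set ρ : Form (n + 2) X 2 := dfdg (d := n + 2) u (zl θ ψ Ω χ₁ l) with hρ
  obtain ⟨g1, -, g3, -⟩ := Pool.Agent.Y484.SY.t_GEN (n + 2) X u u (zl θ ψ Ω χ₁ l) hus hus hζs
  have hsmρ : IsSmooth ρ := by
    intro U φ hU hφ
    refine ContDiffOn.congr ?_ fun p hp => Pool.Agent.Y484.SY.pb_dfdg hU hφ hus hζs hp
    exact Pool.Agent.Y484.SY.smooth_wedge
      ((Pool.Agent.Y484.SY.comp_smooth hφ hus).fderiv_of_isOpen hU (by simp))
      ((Pool.Agent.Y484.SY.comp_smooth hφ hζs).fderiv_of_isOpen hU (by simp))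
  have hex : ExactF ρ := ⟨_, g1, hsmρ, g3⟩
  have hsub : Metric.ball (jn b z₁) s ⊆ Metric.ball (jn b z₁) S :=
    Metric.ball_subset_ball hsS.le
  have hgz : ∀ z, z ∉ Metric.ball z₁ s → g =ᶠ[𝓝 z] fun _ => 0 := fun z hz =>
    notMem_tsupport_iff_eventuallyEq.mp fun h => hz (hgs h)
  have hpt : ∀ y ∈ K, fderiv ℝ g (Gz θ ψ Ω χ₁ y.proj) v * Wz θ ψ Ω χ₂ τ y.proj = qq ρ J y := by
    intro y hy
    refine (keyK D hsS hball (fun p hp => (h₁ p hp).eq_of_nhds)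
      (fun p hp => (h₂ p hp).eq_of_nhds)
      (fun p hp => image_eq_zero_of_notMem_tsupport fun h => hp (hs₂ h))
      (a := fun z => fderiv ℝ g z v) ?_ ?_ ?_ (hK1 y hy) (fun h j => (hK2 y hy h j).1)
      (fun h j => (hK2 y hy h j).2)).symm
    · intro z hz
      rw [(hgz z hz).fderiv_eq]
      simp
    · intro z hz
      have hzs : jn b z ∈ Metric.ball (jn b z₁) s := jn_ball.2 hz
      have hzS := hsub hzs
      have e1' : u ∘ θ =ᶠ[𝓝 (jn b z)] fun p => g (pz p) := by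
        refine (ex_comp D.ch a (hball hzS)).trans ?_
        filter_upwards [h₂ _ hzs] with y hy
        rw [ha]
        simp only [hy, mul_one]
      rw [hρ, tz_dfdg D.ch hus hζs (hball hzS) e1' (zl_at D.ch (hball hzS) (h₁ _ hzS) l),
        fderiv_pz hg, fderiv_pz hg, pz_jn, pz_e0, pz_e1, ContinuousLinearMap.fderiv, hl0, hl1]
      conv_rhs => rw [plane_exp v]
      rw [map_add, map_smul, map_smul, smul_eq_mul, smul_eq_mul]
      ring
    · intro hx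
      have hu0 : u =ᶠ[𝓝 y.proj] fun _ => 0 := by
        by_cases hxΩ : y.proj ∈ θ '' Ω
        · have hF := fun j => (hK2 y hy hxΩ j).1
          obtain ⟨p, hp, hpx⟩ := hxΩ
          rw [← hpx] at hx hF ⊢
          have hpb : jn b (pz p) = p := jn_pz b p fun j => by
            rw [← D.str p hp j]
            exact hF j
          have hz : pz p ∉ Metric.ball z₁ s := fun h => hx ⟨p, by
            rw [← hpb]
            exact jn_ball.2 h, rfl⟩
          have h3 : a =ᶠ[𝓝 p] fun _ => 0 := by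
            have h4 : ∀ᶠ p' in 𝓝 p, g (pz p') = 0 :=
              pz.continuous.continuousAt.tendsto.eventually (hgz _ hz)
            filter_upwards [h4] with p' hp'
            rw [ha]
            simp only [hp', zero_mul]
          refine (ex_congr D.ch hp h3).trans ?_
          filter_upwards with y'
          unfold ex
          split_ifs <;> rfl
        · exact ex_near D.ch hac hat fun h => hxΩ (image_mono hat h)
      exact dfdg_zero (dd_zero_of (m := n + 2) hu0)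
  have hae : ∀ᵐ y ∂μ, y ∈ K := by
    have : ∀ᵐ p ∂μ, p ∉ Kᶜ := measure_eq_zero_iff_ae_notMem.1 hμ.car
    exact this.mono fun x hx => not_not.1 hx
  rw [integral_congr_ae (hae.mono fun y hy => hpt y hy)]
  exact hμ.orth ρ hex

/-- the coefficient on the slice -/
def gr (θ : E (n + 2) → X) (b : Fin n → ℝ) (z₁ : E 2) (r : ℝ) (ρ : Form (n + 2) X 2) (z : E 2) :
    ℝ := open Classical in if z ∈ Metric.ball z₁ r then tz θ ρ (jn b z) else 0

lemma gr_smooth (D : Dat J τ F θ ψ Ω) {b : Fin n → ℝ} {z₁ : E 2} {r : ℝ}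
    (hball : Metric.closedBall (jn b z₁) r ⊆ Ω) {ρ : Form (n + 2) X 2} (hρ : IsSmooth ρ)
    (hN : SuppIn ρ (θ '' Metric.ball (jn b z₁) r)) :
    ContDiff ℝ ∞ (gr θ b z₁ r ρ) ∧ tsupport (gr θ b z₁ r ρ) ⊆ Metric.ball z₁ r := by
  obtain ⟨C, hC, hCN, hC0⟩ := hN
  have hjn : ∀ z ∈ Metric.closedBall z₁ r, jn b z ∈ Metric.closedBall (jn b z₁) r := by
    intro z hz
    rw [Metric.mem_closedBall, jn_dist]
    exact hz
  have hcont : ContinuousOn (fun z => θ (jn b z)) (Metric.closedBall z₁ r) :=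
    D.ch.sm.continuousOn.comp (jn_smooth b).continuous.continuousOn fun z hz => hball (hjn z hz)
  have hC' : IsClosed (Metric.closedBall z₁ r ∩ (fun z => θ (jn b z)) ⁻¹' C) :=
    hcont.preimage_isClosed_of_isClosed Metric.isClosed_closedBall hC
  have hsub : Metric.closedBall z₁ r ∩ (fun z => θ (jn b z)) ⁻¹' C ⊆ Metric.ball z₁ r := by
    rintro z ⟨hz, hzC⟩
    obtain ⟨p, hp, hpe⟩ := hCN hzC
    have h1 : p = jn b z := by
      rw [← D.ch.inv p (hball (Metric.ball_subset_closedBall hp)), hpe,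
        D.ch.inv _ (hball (hjn z hz))]
    rw [h1] at hp
    exact jn_ball.1 hp
  have hts : tsupport (gr θ b z₁ r ρ) ⊆ Metric.ball z₁ r := by
    refine Subset.trans (closure_minimal ?_ hC') hsub
    intro z hz
    rw [Function.mem_support] at hz
    have hzb : z ∈ Metric.ball z₁ r := by
      by_contra h
      exact hz (if_neg h)
    refine ⟨Metric.ball_subset_closedBall hzb, ?_⟩
    by_contra h
    refine hz ?_
    unfold gr
    rw [if_pos hzb]
    exact tz_zero (hC0 _ h)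
  refine ⟨glob_supp Metric.isOpen_ball ?_ hts, hts⟩
  have h1 : ContDiffOn ℝ ∞ (fun z => tz θ ρ (jn b z)) (Metric.ball z₁ r) :=
    (tz_smooth D.ch hρ).comp (jn_smooth b).contDiffOn fun z hz =>
      hball (hjn z (Metric.ball_subset_closedBall hz))
  exact h1.congr fun z hz => if_pos hz

end

end Pool.Agent.L7h76.OG
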