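import Mathlib
import Pool.Agent.L7h76.OG.Loc

/-!
Local product structure of closed currents near a regular point: part `S_LOC` of the project OF.
-/

set_option autoImplicit false
set_option linter.unusedSectionVars false
set_option linter.unusedSimpArgs false

open Set Filter Topology MeasureTheory
open scoped Manifold ContDiff

noncomputable section

namespace Pool.Agent.L7h76.OG

open Pool.Agent.Y501.SY
open Pool.Agent.N13.TL
open Pool.Agent.L7h49.OG
open Pool.Agent.L7h49.TS (qq)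
open Pool.Agent.R772 (ExactF)
open Pool.Agent.L7h76.OF (glob_supp fderiv_zero_of)

/-- points near the slice -/
lemma near_slice {n : ℕ} {b : Fin n → ℝ} {z₁ : E 2} {r : ℝ} (hr : 0 < r) {p : E (n + 2)}
    (hz : pz p ∈ Metric.ball z₁ (r / 4)) (hy : ∀ j : Fin n, |p j.succ.succ - b j| < r / (4 * (n + 1))) :
    p ∈ Metric.ball (jn b z₁) (r / 2) := by
  rw [Metric.mem_ball, EuclideanSpace.dist_eq] at hz ⊢
  rw [Fin.sum_univ_two] at hz
  rw [Fin.sum_univ_succ, Fin.sum_univ_succ]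
  have h1 : dist ((pz p) 0) (z₁ 0) ^ 2 + dist ((pz p) 1) (z₁ 1) ^ 2 < (r / 4) ^ 2 :=
    (Real.sqrt_lt' (by positivity)).1 hz
  have h1' : dist (p 0) (z₁ 0) ^ 2 + dist (p (Fin.succ 0)) (z₁ 1) ^ 2 < (r / 4) ^ 2 := h1
  have h2 : ∑ i : Fin n, dist (p i.succ.succ) (b i) ^ 2 ≤ (r / 4) ^ 2 := by
    have h3 : ∀ i : Fin n, dist (p i.succ.succ) (b i) ^ 2 ≤ (r / (4 * (n + 1))) ^ 2 := by
      intro i
      rw [Real.dist_eq]
      exact pow_le_pow_left₀ (abs_nonneg _) (hy i).le 2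
    calc ∑ i : Fin n, dist (p i.succ.succ) (b i) ^ 2
        ≤ ∑ _i : Fin n, (r / (4 * (n + 1))) ^ 2 := Finset.sum_le_sum fun i _ => h3 i
      _ = n * (r / (4 * (n + 1))) ^ 2 := by simp
      _ ≤ (r / 4) ^ 2 := by
        have h4 : (0 : ℝ) ≤ n := Nat.cast_nonneg n
        have h5 : (r / (4 * ((n : ℝ) + 1))) ^ 2 = (r / 4) ^ 2 / ((n : ℝ) + 1) ^ 2 := by
          rw [← div_pow, div_div]
        rw [h5, ← mul_div_assoc, div_le_iff₀ (by positivity)]
        have h6 : (n : ℝ) ≤ ((n : ℝ) + 1) ^ 2 := by nlinarith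
        have h7 : 0 ≤ (r / 4) ^ 2 := by positivity
        nlinarith
  rw [Real.sqrt_lt' (by positivity)]
  have h8 : dist (p 0) ((jn b z₁) 0) ^ 2 + (dist (p (Fin.succ 0)) ((jn b z₁) (Fin.succ 0)) ^ 2
      + ∑ i : Fin n, dist (p i.succ.succ) ((jn b z₁) i.succ.succ) ^ 2)
      = dist (p 0) (z₁ 0) ^ 2 + dist (p (Fin.succ 0)) (z₁ 1) ^ 2
        + ∑ i : Fin n, dist (p i.succ.succ) (b i) ^ 2 := by
    rw [jn_0, jn_1, add_assoc]
    rfl
  rw [h8]
  nlinarith [sq_nonneg r, mul_pos hr hr]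

theorem st_LOC (hSTR : S_STR) (hTI : Pool.Agent.L7h49.OF.S_TI) : S_LOC := by
  intro n X _ _ _ _ _ _ _ J τ F b K x₁ N₁ hJ hτ htame hF hK hKτ hN₁ hFx₁ hreg hinvJ hKN
  obtain ⟨Ω, p₁, θ, ψ, hΩ, hp₁, hθ₁, hθ, hθo, hθN, hψ, hinv, hstr⟩ :=
    hSTR n X F hF x₁ N₁ hN₁ hreg
  have hch : Ch θ ψ Ω := ⟨hΩ, hθ, hθo, hψ, hinv⟩
  have D : Dat J τ F θ ψ Ω := ⟨hch, hτ, htame, hF, hstr, fun x hx => hinvJ x (hθN hx)⟩
  set t : E (n + 2) → ℝ := tz θ τ with htdef
  have ht : ContDiffOn ℝ ∞ t Ω := tz_smooth hch hτ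
  set ε : ℝ := t p₁ with hεdef
  have hε : ε ≠ 0 := tz_ne D hp₁
  have hε2 : 0 < ε * ε := mul_self_pos.2 hε
  have hO : ∀ᶠ p in 𝓝 p₁, p ∈ Ω ∧ 0 < ε * t p := by
    have h1 : ContinuousAt (fun p => ε * t p) p₁ :=
      continuousAt_const.mul (ht.continuousOn.continuousAt (hΩ.mem_nhds hp₁))
    filter_upwards [hΩ.mem_nhds hp₁, h1.eventually (lt_mem_nhds (b := ε * t p₁) hε2)] with p hp hp'
    exact ⟨hp, hp'⟩
  obtain ⟨R₀, hR₀, hball₀⟩ := Metric.nhds_basis_ball.eventually_iff.1 hO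
  set z₁ : E 2 := pz p₁ with hz₁
  have hjp : jn b z₁ = p₁ := jn_pz b p₁ fun j => by
    rw [← hstr p₁ hp₁ j, hθ₁, hFx₁]
  rw [← hjp] at hball₀
  set S : ℝ := R₀ / 2 with hS
  set s : ℝ := R₀ / 4 with hs
  set r : ℝ := R₀ / 12 with hr
  have hrpos : 0 < r := by rw [hr]; linarith
  have hs3 : s = 3 * r := by rw [hs, hr]; ring
  have hsS : s < S := by rw [hs, hS]; linarith
  have hrs : r < s := by rw [hs3]; linarith
  obtain ⟨χ₁, χ₁s, χ₁c, χ₁t, χ₁o, -⟩ := cut (jn b z₁) (s := S) (S := R₀) (by linarith) (by linarith)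
  obtain ⟨χ₂, χ₂s, χ₂c, χ₂t, χ₂o, -⟩ := cut (jn b z₁) (s := s) (S := S) (by linarith) hsS
  obtain ⟨χ₃, χ₃s, χ₃c, χ₃t, χ₃o, χ₃n⟩ := cut (jn b z₁) (s := r / 2) (S := r) (by linarith)
    (by linarith)
  obtain ⟨h, hhs, hhc, hht, hho, hhn⟩ := cut z₁ (s := r / 8) (S := r / 4) (by linarith)
    (by linarith)
  have hb0 : ∀ p ∈ Metric.ball (jn b z₁) R₀, p ∈ Ω := fun p hp => (hball₀ hp).1
  have hbS : Metric.ball (jn b z₁) S ⊆ Ω := fun p hp =>
    hb0 p (Metric.ball_subset_ball (by linarith) hp)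
  have hbs : Metric.ball (jn b z₁) s ⊆ Metric.ball (jn b z₁) S :=
    Metric.ball_subset_ball hsS.le
  have hbr : Metric.ball (jn b z₁) r ⊆ Metric.ball (jn b z₁) s :=
    Metric.ball_subset_ball hrs.le
  have hcr : Metric.closedBall (jn b z₁) r ⊆ Ω := fun p hp =>
    hbS (hbs (Metric.closedBall_subset_ball hrs hp))
  -- the functions
  set ζ0 : X → ℝ := zl θ ψ Ω χ₁ (EuclideanSpace.proj 0) with hζ0
  set ζ1 : X → ℝ := zl θ ψ Ω χ₁ (EuclideanSpace.proj (Fin.succ 0)) with hζ1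
  have hζ0s : SmoothFun (d := n + 2) ζ0 := zl_smooth hch χ₁s χ₁c (fun p hp => hb0 p (χ₁t hp)) _
  have hζ1s : SmoothFun (d := n + 2) ζ1 := zl_smooth hch χ₁s χ₁c (fun p hp => hb0 p (χ₁t hp)) _
  set a : E (n + 2) → ℝ := fun p => ε * h (pz p) * χ₃ p with ha
  have has : ContDiff ℝ ∞ a := (contDiff_const.mul (hhs.comp pz.contDiff)).mul χ₃s
  have hac : HasCompactSupport a := χ₃c.mul_left
  have hat3 : tsupport a ⊆ tsupport χ₃ := tsupport_mul_subset_right
  have hat : tsupport a ⊆ Ω := (hat3.trans χ₃t).trans (hbr.trans (hbs.trans hbS))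
  set H : X → ℝ := ex θ ψ Ω a with hH
  have hHs : SmoothFun (d := n + 2) H := ex_smooth hch has hac hat
  set κ : Form (n + 2) X 2 := hdfdg (d := n + 2) H ζ0 ζ1 with hκ
  have hκs : IsSmooth κ := (Pool.Agent.Y484.SY.t_GEN (n + 2) X H ζ0 ζ1 hHs hζ0s hζ1s).2.1
  have hκ0 : ∀ x, H x = 0 → κ x = 0 := by
    intro x hx
    show H x • wedge (V := E (n + 2)) (dd ζ0 x) (dd ζ1 x) = 0
    rw [hx]
    exact zero_smul ℝ (wedge (V := E (n + 2)) (dd ζ0 x) (dd ζ1 x))
  set N : Set X := θ '' Metric.ball (jn b z₁) r with hN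
  have hNΩ : N ⊆ θ '' Ω := image_mono (hbr.trans (hbs.trans hbS))
  have hNo : IsOpen N := by
    have h1 : N = θ '' Ω ∩ ψ ⁻¹' Metric.ball (jn b z₁) r := by
      ext x
      constructor
      · rintro ⟨p, hp, rfl⟩
        have hpΩ := hbS (hbs (hbr hp))
        refine ⟨mem_image_of_mem θ hpΩ, ?_⟩
        show ψ (θ p) ∈ Metric.ball (jn b z₁) r
        rw [hinv p hpΩ]
        exact hp
      · rintro ⟨⟨p, hp, rfl⟩, hx⟩
        rw [mem_preimage, hinv p hp] at hx
        exact mem_image_of_mem θ hx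
    rw [h1]
    exact hψ.continuousOn.isOpen_inter_preimage hθo Metric.isOpen_ball
  have hκN : SuppIn κ N := by
    refine ⟨θ '' tsupport a, ?_, image_mono (hat3.trans χ₃t), fun x hx => hκ0 x ?_⟩
    · exact (hac.isCompact.image_of_continuousOn (hθ.continuousOn.mono hat)).isClosed
    · exact (ex_near hch hac hat hx).eq_of_nhds
  -- the coefficient of `κ`
  have htzκ : ∀ p ∈ Metric.ball (jn b z₁) S, tz θ κ p = a p := by
    intro p hp
    have hpΩ := hbS hp
    rw [hκ, tz_hdfdg hch hζ0s hζ1s hpΩ (zl_at hch hpΩ (χ₁o p hp) _) (zl_at hch hpΩ (χ₁o p hp) _),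
      ContinuousLinearMap.fderiv, ContinuousLinearMap.fderiv]
    have h1 : H (θ p) = a p := ex_at hch a hpΩ
    rw [h1]
    simp [Fin.ext_iff]
  have hh0 : ∀ z, z ∉ Metric.ball z₁ (r / 4) → h z = 0 := fun z hz =>
    image_eq_zero_of_notMem_tsupport fun h' => hz (hht h')
  have hgκ : gr θ b z₁ r κ = fun z => ε * h z := by
    funext z
    unfold gr
    by_cases hz : z ∈ Metric.ball z₁ r
    · rw [if_pos hz, htzκ _ (hbs (hbr (jn_ball.2 hz)))]
      show ε * h (pz (jn b z)) * χ₃ (jn b z) = ε * h z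
      rw [pz_jn]
      by_cases hz4 : z ∈ Metric.ball z₁ (r / 4)
      · have h1 : jn b z ∈ Metric.ball (jn b z₁) (r / 2) :=
          jn_ball.2 (Metric.ball_subset_ball (by linarith) hz4)
        rw [(χ₃o _ h1).eq_of_nhds, mul_one]
      · rw [hh0 z hz4]
        ring
    · rw [if_neg hz, hh0 z fun h' => hz (Metric.ball_subset_ball (by linarith) h')]
      ring
  have hhpos : 0 < ∫ z, h z := by
    refine hhs.continuous.integral_pos_of_hasCompactSupport_nonneg_nonzero hhc hhn (x := z₁) ?_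
    rw [(hho z₁ (Metric.mem_ball_self (by linarith))).eq_of_nhds]
    exact one_ne_zero
  have hgκi : ∫ z, gr θ b z₁ r κ z = ε * ∫ z, h z := by
    rw [hgκ, integral_const_mul]
  -- `I`
  refine ⟨N, κ, fun ρ => (∫ z, gr θ b z₁ r ρ z) / (ε * ∫ z, h z), hNΩ.trans hθN, ?_⟩
  have hx₁N : x₁ ∈ N := ⟨jn b z₁, Metric.mem_ball_self hrpos, by rw [hjp, hθ₁]⟩
  -- positivity relation
  have hposrel : ∀ p ∈ Metric.ball (jn b z₁) r, ∀ v : TangentSpace (𝓡 (n + 2)) (θ p),
      (∀ j, dd (d := n + 2) (F j) (θ p) v = 0) →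
      q κ J (θ p) v * (ε * t p) = q τ J (θ p) v * (ε * ε * h (pz p) * χ₃ p) := by
    intro p hp v hv
    have hpΩ := hbS (hbs (hbr hp))
    have h1 := key D hpΩ v hv κ
    rw [htzκ p (hbs (hbr hp))] at h1
    have h2 : q κ J (θ p) v * (ε * t p) = ε * (q κ J (θ p) v * tz θ τ p) := by
      rw [htdef]; ring
    rw [h2, h1, ha]
    ring
  have htp : ∀ p ∈ Metric.ball (jn b z₁) r, 0 < ε * t p := fun p hp =>
    (hball₀ (Metric.ball_subset_ball (by linarith) hp)).2
  refine ⟨hNo, hx₁N, hκs, hκN, ?_, ?_, ?_, ?_, ?_⟩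
  · -- nonneg
    intro x v hv
    by_cases hx : x ∈ N
    · obtain ⟨p, hp, rfl⟩ := hx
      have h1 := hposrel p hp v hv
      have h2 : 0 ≤ q τ J (θ p) v := q_nonneg (htame _) v
      have h3 : 0 ≤ q τ J (θ p) v * (ε * ε * h (pz p) * χ₃ p) :=
        mul_nonneg h2 (mul_nonneg (mul_nonneg hε2.le (hhn _)) (χ₃n _))
      rw [← h1] at h3
      exact nonneg_of_mul_nonneg_left h3 (htp p hp)
    · obtain ⟨C, -, hC1, hC2⟩ := hκN
      have h0 : κ x = 0 := hC2 x fun h' => hx (hC1 h')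
      show 0 ≤ κ x ![v, J x v]
      rw [h0]
      exact le_refl _
  · -- pos
    have hp₁b : p₁ ∈ Metric.ball (jn b z₁) r := by
      rw [hjp]
      exact Metric.mem_ball_self hrpos
    have hgen : ∀ x, θ p₁ = x → ∀ v : TangentSpace (𝓡 (n + 2)) x, v ≠ 0 →
        (∀ j, dd (d := n + 2) (F j) x v = 0) → 0 < q κ J x v := by
      rintro x rfl v hv0 hv
      have h1 := hposrel p₁ hp₁b v hv
      have h2 : 0 < q τ J (θ p₁) v := htame _ v hv0
      have h3 : h (pz p₁) = 1 := (hho z₁ (Metric.mem_ball_self (by linarith))).eq_of_nhds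
      have h4 : χ₃ p₁ = 1 := by
        have h5 := (χ₃o (jn b z₁) (Metric.mem_ball_self (by linarith))).eq_of_nhds
        rwa [hjp] at h5
      rw [h3, h4, mul_one, mul_one] at h1
      have h5 : 0 < q κ J (θ p₁) v * (ε * t p₁) := by
        rw [h1]
        exact mul_pos h2 hε2
      exact pos_of_mul_pos_left h5 (htp p₁ hp₁b).le
    exact hgen x₁ hθ₁
  · -- closed
    refine ⟨r / (4 * (n + 1)), by positivity, ?_⟩
    intro c p hp hpF
    set φ := (chartAt (E (n + 2)) c).symm with hφ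
    set U := (chartAt (E (n + 2)) c).target with hU
    have hUo : IsOpen U := (chartAt (E (n + 2)) c).open_target
    have hφs : ContMDiffOn (𝓡 (n + 2)) (𝓡 (n + 2)) ∞ φ U := contMDiffOn_chart_symm
    have hφc : ContinuousAt φ p := hφs.continuousOn.continuousAt (hUo.mem_nhds hp)
    have hpbκ : ∀ p' ∈ U, pb φ κ p' = H (φ p') • wedge (fderiv ℝ (ζ0 ∘ φ) p')
        (fderiv ℝ (ζ1 ∘ φ) p') := fun p' hp' =>
      Pool.Agent.Y484.SY.pb_hdfdg hUo hφs hζ0s hζ1s hp'
    have hcase : (H =ᶠ[𝓝 (φ p)] fun _ => 0) ∨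
        (H =ᶠ[𝓝 (φ p)] fun x => ε * h (WithLp.toLp 2 ![ζ0 x, ζ1 x])) := by
      by_cases hx : φ p ∈ θ '' Ω
      · obtain ⟨y, hy, hye⟩ := hx
        by_cases hyz : pz y ∈ tsupport h
        · right
          have hy2 : y ∈ Metric.ball (jn b z₁) (r / 2) := by
            refine near_slice hrpos (hht hyz) fun j => ?_
            rw [← hstr y hy j, hye]
            exact hpF j
          have hyS : y ∈ Metric.ball (jn b z₁) S :=
            Metric.ball_subset_ball (by linarith) hy2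
          rw [← hye]
          have h1 : ∀ᶠ y' in 𝓝 y, y' ∈ Ω ∧ χ₃ y' = 1 ∧ χ₁ y' = 1 := by
            filter_upwards [hΩ.mem_nhds hy, χ₃o y hy2, χ₁o y hyS] with y' h1 h2 h3
            exact ⟨h1, h2, h3⟩
          have h2 : Tendsto ψ (𝓝 (θ y)) (𝓝 y) := by
            have h3 : ContinuousAt ψ (θ y) :=
              (hψ.contMDiffAt (hθo.mem_nhds (mem_image_of_mem θ hy))).continuousAt
            have h4 := h3.tendsto
            rwa [hinv y hy] at h4
          filter_upwards [h2.eventually h1, hθo.mem_nhds (mem_image_of_mem θ hy)] with x hx1 hx2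
          obtain ⟨y', hy', rfl⟩ := hx2
          rw [hinv y' hy'] at hx1
          obtain ⟨-, h5, h6⟩ := hx1
          have h7 : (WithLp.toLp 2 ![ζ0 (θ y'), ζ1 (θ y')] : E 2) = pz y' :=
            Gz_at hch hy' h6
          rw [h7]
          have h8 : H (θ y') = a y' := ex_at hch a hy'
          rw [h8]
          show ε * h (pz y') * χ₃ y' = _
          rw [h5, mul_one]
        · left
          rw [← hye]
          have h1 : a =ᶠ[𝓝 y] fun _ => 0 := by
            have h2 : ∀ᶠ y' in 𝓝 y, h (pz y') = 0 :=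
              pz.continuous.continuousAt.tendsto.eventually
                (notMem_tsupport_iff_eventuallyEq.mp hyz)
            filter_upwards [h2] with y' hy'
            show ε * h (pz y') * χ₃ y' = 0
            rw [hy']
            ring
          refine (ex_congr hch hy h1).trans ?_
          filter_upwards with y'
          unfold ex
          split_ifs <;> rfl
      · left
        exact ex_near hch hac hat fun h' => hx (image_mono hat h')
    rcases hcase with h1 | h1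
    · have h2 : pb φ κ =ᶠ[𝓝 p] fun _ => 0 := by
        filter_upwards [hφc.tendsto.eventually h1, hUo.mem_nhds hp] with p' hp1 hp2
        rw [hpbκ p' hp2, hp1, zero_smul]
      rw [h2.extDeriv_eq]
      unfold extDeriv
      rw [fderiv_const_apply]
      exact map_zero (ContinuousAlternatingMap.alternatizeUncurryFinCLM ℝ (E (n + 2)) ℝ)
    · have h2 : pb φ κ =ᶠ[𝓝 p] fun p' =>
          (fun z => ε * h z) (WithLp.toLp 2 ![(ζ0 ∘ φ) p', (ζ1 ∘ φ) p']) •
            wedge (fderiv ℝ (ζ0 ∘ φ) p') (fderiv ℝ (ζ1 ∘ φ) p') := by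
        filter_upwards [hφc.tendsto.eventually h1, hUo.mem_nhds hp] with p' hp1 hp2
        rw [hpbκ p' hp2, hp1]
        rfl
      rw [h2.extDeriv_eq]
      exact closed2 hUo (Pool.Agent.Y484.SY.comp_smooth hφs hζ0s)
        (Pool.Agent.Y484.SY.comp_smooth hφs hζ1s) (contDiff_const.mul hhs) hp
  · -- ipos
    intro u hu hu0 huN hux
    obtain ⟨x, hxb, hxu⟩ := hux
    have hxN : x ∈ N := huN (subset_tsupport u hxu.ne')
    have hρs : IsSmooth (fun x => u x • τ x : Form (n + 2) X 2) := by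
      intro U φ hU hφ
      exact (Pool.Agent.Y484.SY.comp_smooth hφ hu).smul (hτ U φ hU hφ)
    have hρN : SuppIn (fun x => u x • τ x : Form (n + 2) X 2) N := by
      refine ⟨tsupport u, isClosed_tsupport u, huN, fun x hx => ?_⟩
      show u x • τ x = 0
      rw [image_eq_zero_of_notMem_tsupport hx, zero_smul]
    obtain ⟨g1, g2⟩ := gr_smooth D hcr hρs hρN
    set G := gr θ b z₁ r (fun x => u x • τ x : Form (n + 2) X 2) with hG
    have hGv : ∀ z ∈ Metric.ball z₁ r, G z = u (θ (jn b z)) * t (jn b z) := by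
      intro z hz
      rw [hG]
      unfold gr
      rw [if_pos hz]
      rfl
    have hGc : HasCompactSupport G := HasCompactSupport.of_support_subset_isCompact
      (isCompact_closedBall z₁ r)
      ((subset_tsupport G).trans (g2.trans Metric.ball_subset_closedBall))
    have hGn : ∀ z, 0 ≤ ε * G z := by
      intro z
      by_cases hz : z ∈ Metric.ball z₁ r
      · rw [hGv z hz]
        have h1 := htp (jn b z) (jn_ball.2 hz)
        have h2 := hu0 (θ (jn b z))
        have h3 := mul_nonneg h2 h1.le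
        linarith
      · have h1 : G z = 0 := if_neg hz
        rw [h1, mul_zero]
    obtain ⟨p, hp, hpx⟩ := hxN
    have hpb : jn b (pz p) = p := jn_pz b p fun j => by
      rw [← hstr p (hbS (hbs (hbr hp))) j, hpx, hxb]
    have hzp : pz p ∈ Metric.ball z₁ r := by
      rw [← hpb] at hp
      exact jn_ball.1 hp
    have hGp : ε * G (pz p) ≠ 0 := by
      rw [hGv _ hzp, hpb, hpx]
      have h1 := htp p hp
      have h2 := mul_pos hxu h1
      have h3 : ε * (u x * t p) = u x * (ε * t p) := by ring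
      rw [h3]
      exact h2.ne'
    have hpos : 0 < ∫ z, ε * G z :=
      (continuous_const.mul g1.continuous).integral_pos_of_hasCompactSupport_nonneg_nonzero
        hGc.mul_left hGn hGp
    rw [integral_const_mul] at hpos
    show 0 < (∫ z, G z) / (ε * ∫ z, h z)
    have h4 : (∫ z, G z) / (ε * ∫ z, h z) = (ε * ∫ z, G z) / (ε * ε * ∫ z, h z) := by
      field_simp
    rw [h4]
    exact div_pos hpos (mul_pos hε2 hhpos)
  · -- formula
    intro μ hμ ρ hρ hρN
    have := hμ.fin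
    have hK2 : ∀ y ∈ K, y.proj ∈ θ '' Ω → ∀ j, F j y.proj = b j ∧
        dd (d := n + 2) (F j) y.proj y.snd = 0 := fun y hy hyΩ => hKN y hy (hθN hyΩ)
    have hae : ∀ᵐ y ∂μ, y ∈ K := by
      have : ∀ᵐ p ∂μ, p ∉ Kᶜ := measure_eq_zero_iff_ae_notMem.1 hμ.car
      exact this.mono fun x hx => not_not.1 hx
    have hpr : Continuous (fun y : TangentBundle (𝓡 (n + 2)) X => y.proj) :=
      FiberBundle.continuous_proj _ _
    set G : TangentBundle (𝓡 (n + 2)) X → E 2 := fun y => Gz θ ψ Ω χ₁ y.proj with hG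
    set w : TangentBundle (𝓡 (n + 2)) X → ℝ := fun y => Wz θ ψ Ω χ₂ τ y.proj with hw
    have hGc : Continuous G := (Gz_cont hch χ₁s χ₁c fun p hp => hb0 p (χ₁t hp)).comp hpr
    have hwc : Continuous w := (Wz_smooth D χ₂s χ₂c (χ₂t.trans hbS)).continuous.comp hpr
    have hwi : Integrable w μ := by
      obtain ⟨C, hC⟩ := hK.exists_bound_of_continuousOn hwc.continuousOn
      exact Integrable.of_bound hwc.aestronglyMeasurable C (hae.mono fun p hp => hC p hp)
    have hint : ∀ ρ : Form (n + 2) X 2, IsSmooth ρ → SuppIn ρ N →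
        ∫ y, qq ρ J y ∂μ = ∫ y, gr θ b z₁ r ρ (G y) * w y ∂μ := by
      intro ρ hρ hρN
      obtain ⟨C, -, hCN, hC0⟩ := hρN
      refine integral_congr_ae (hae.mono fun y hy => ?_)
      refine keyK D hsS hbS (fun p hp => (χ₁o p hp).eq_of_nhds)
        (fun p hp => (χ₂o p hp).eq_of_nhds)
        (fun p hp => image_eq_zero_of_notMem_tsupport fun h => hp (χ₂t h))
        (a := gr θ b z₁ r ρ) ?_ ?_ ?_ (hKτ y hy) (fun h j => (hK2 y hy h j).1)
        (fun h j => (hK2 y hy h j).2)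
      · intro z hz
        exact if_neg fun h' => hz (Metric.ball_subset_ball hrs.le h')
      · intro z hz
        unfold gr
        by_cases hzr : z ∈ Metric.ball z₁ r
        · rw [if_pos hzr]
        · rw [if_neg hzr]
          refine tz_zero (hC0 _ fun h' => ?_)
          obtain ⟨p, hp, hpe⟩ := hCN h'
          have h1 : p = jn b z := by
            rw [← hinv p (hbS (hbs (hbr hp))), hpe, hinv _ (hbS (hbs (jn_ball.2 hz)))]
          rw [h1] at hp
          exact hzr (jn_ball.1 hp)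
      · intro hx
        exact hC0 _ fun h' => hx (image_mono hbr (hCN h'))
    have h1 := gr_smooth D hcr hρ hρN
    have h2 := gr_smooth D hcr hκs hκN
    have h3 := hTI 2 (TangentBundle (𝓡 (n + 2)) X) μ G w hGc.aemeasurable hwi z₁ r hrpos
      (fun g hg hgc hgs v => inv_TI D hsS χ₁s χ₁c (fun p hp => hb0 p (χ₁t hp)) χ₂s χ₂c χ₂t hbS
        χ₁o χ₂o hμ hKτ hK2 hg (by rw [hs3]; exact hgs) v)
      (gr θ b z₁ r ρ) (gr θ b z₁ r κ) h1.1 h2.1 h1.2 h2.2
    rw [← hint ρ hρ hρN, ← hint κ hκs hκN, hgκi] at h3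
    show _ = (∫ z, gr θ b z₁ r ρ z) / (ε * ∫ z, h z) * _
    rw [div_mul_eq_mul_div, eq_div_iff (mul_ne_zero hε hhpos.ne'), h3]
    ring

end Pool.Agent.L7h76.OG
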