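import Mathlib
import Pool.Agent.L7h49.OF.Stm3
import Pool.Agent.Y604.SY.Pull

/-!
Pull-back of forms under smooth maps (part `S_PBK` of the project OF), after
`Pool.Agent.Y604.SY.t_PULL`.
-/

set_option autoImplicit false

open Set Filter Topology
open scoped Manifold ContDiff

noncomputable section

namespace Pool.Agent.L7h76.OG

open Pool.Agent.Y501.SY (E Form pb IsSmooth IsD IsClosedForm)
open Pool.Agent.L7h49.OG
open Pool.Agent.Y604.SY (pbG pbG_congr pbG_comp contDiff_pull)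

theorem st_PBK : S_PBK := by
  intro d m X Y _ _ _ _ _ _ f σ hf hσ
  have key : ∀ (U : Set (E d)) (φ : E d → X), IsOpen U → ContMDiffOn (𝓡 d) (𝓡 d) ∞ φ U →
      ∀ p₀ ∈ U, ∃ (w : E m → (E m) [⋀^Fin 2]→L[ℝ] ℝ) (ψ : E d → E m),
        ContDiffAt ℝ ∞ w (ψ p₀) ∧ (IsClosedForm σ → extDeriv w (ψ p₀) = 0) ∧ ContDiffAt ℝ ∞ ψ p₀ ∧
        pb φ (pull (d := d) f σ) =ᶠ[𝓝 p₀]
          fun p => (w (ψ p)).compContinuousLinearMap (fderiv ℝ ψ p) := by
    intro U φ hU hφ p₀ hp₀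
    obtain ⟨c, hc⟩ : ∃ c, c = chartAt (E m) (f (φ p₀)) := ⟨_, rfl⟩
    have hF : ContMDiffOn (𝓡 d) (𝓡 m) ∞ (f ∘ φ) U := hf.comp_contMDiffOn hφ
    have hU' : IsOpen (U ∩ (f ∘ φ) ⁻¹' c.source) :=
      hF.continuousOn.isOpen_inter_preimage hU c.open_source
    have hp₀' : p₀ ∈ U ∩ (f ∘ φ) ⁻¹' c.source := by
      refine ⟨hp₀, ?_⟩
      rw [hc]
      exact mem_chart_source (E m) (f (φ p₀))
    have hcs : ContMDiffOn (𝓡 m) (𝓡 m) ∞ c c.source := by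
      rw [hc]
      exact contMDiffOn_chart
    have hct : ContMDiffOn (𝓡 m) (𝓡 m) ∞ c.symm c.target := by
      rw [hc]
      exact contMDiffOn_chart_symm
    have hψm : ContMDiffOn (𝓡 d) (𝓡 m) ∞ (c ∘ (f ∘ φ)) (U ∩ (f ∘ φ) ⁻¹' c.source) :=
      hcs.comp (hF.mono inter_subset_left) fun p hp => hp.2
    have hψ : ContDiffOn ℝ ∞ (c ∘ (f ∘ φ)) (U ∩ (f ∘ φ) ⁻¹' c.source) :=
      contMDiffOn_iff_contDiffOn.1 hψm
    have hmaps : ∀ p ∈ U ∩ (f ∘ φ) ⁻¹' c.source, (c ∘ (f ∘ φ)) p ∈ c.target := fun p hp =>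
      c.map_source hp.2
    have hw : ContDiffOn ℝ ∞ (pb c.symm σ) c.target := hσ c.target c.symm c.open_target hct
    have hwd : ∀ q ∈ c.target, IsClosedForm σ → extDeriv (pb c.symm σ) q = 0 := by
      intro q hq hσ'
      rw [hσ' c.target c.symm c.open_target hct q hq]
      ext v
      rfl
    refine ⟨pb c.symm σ, c ∘ (f ∘ φ), hw.contDiffAt (c.open_target.mem_nhds (hmaps p₀ hp₀')),
      hwd _ (hmaps p₀ hp₀'), hψ.contDiffAt (hU'.mem_nhds hp₀'), ?_⟩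
    filter_upwards [hU'.mem_nhds hp₀'] with p hp
    have hφp : MDifferentiableAt (𝓡 d) (𝓡 d) φ p :=
      ((hφ p hp.1).contMDiffAt (hU.mem_nhds hp.1)).mdifferentiableAt (by simp)
    have hfp : MDifferentiableAt (𝓡 d) (𝓡 m) f (φ p) := (hf (φ p)).mdifferentiableAt (by simp)
    have hψp : MDifferentiableAt (𝓡 d) (𝓡 m) (c ∘ (f ∘ φ)) p :=
      ((hψm p hp).contMDiffAt (hU'.mem_nhds hp)).mdifferentiableAt (by simp)
    have hcp : MDifferentiableAt (𝓡 m) (𝓡 m) c.symm ((c ∘ (f ∘ φ)) p) :=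
      ((hct _ (hmaps p hp)).contMDiffAt (c.open_target.mem_nhds (hmaps p hp))).mdifferentiableAt
        (by simp)
    have h1 : pb φ (pull (d := d) f σ) p = pbG σ (f ∘ φ) p := (pbG_comp σ hfp hφp).symm
    have h2 : (f ∘ φ) =ᶠ[𝓝 p] (c.symm ∘ (c ∘ (f ∘ φ))) := by
      filter_upwards [hU'.mem_nhds hp] with r hr
      exact (c.left_inv hr.2).symm
    have h3 : (pb c.symm σ ((c ∘ (f ∘ φ)) p)).compContinuousLinearMap
        (fderiv ℝ (c ∘ (f ∘ φ)) p) = pbG σ (c.symm ∘ (c ∘ (f ∘ φ))) p := by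
      rw [pbG_comp σ hcp hψp, mfderiv_eq_fderiv]
      rfl
    rw [h1, pbG_congr σ h2, h3]
  have hpull : ∀ {w : E m → (E m) [⋀^Fin 2]→L[ℝ] ℝ} {ψ : E d → E m} {p : E d},
      ContDiffAt ℝ ∞ w (ψ p) → ContDiffAt ℝ ∞ ψ p →
      ContDiffAt ℝ ∞ (fun p => (w (ψ p)).compContinuousLinearMap (fderiv ℝ ψ p)) p := by
    intro w ψ p h1 h2
    have h3 : ContDiffAt ℝ ∞ (fun p => (w (ψ p), fderiv ℝ ψ p)) p :=
      (h1.comp p h2).prodMk (h2.fderiv_right (by simp))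
    exact contDiff_pull.contDiffAt.comp p h3
  constructor
  · intro U φ hU hφ p hp
    obtain ⟨w, ψ, h1, h2, h3, h4⟩ := key U φ hU hφ p hp
    exact ((hpull h1 h3).congr_of_eventuallyEq h4).contDiffWithinAt
  · intro hcl U φ hU hφ p hp
    obtain ⟨w, ψ, h1, h2, h3, h4⟩ := key U φ hU hφ p hp
    rw [h4.extDeriv_eq, extDeriv_pullback (r := ∞) (h1.differentiableAt (by simp)) h3 (by
      rw [minSmoothness_of_isRCLikeNormedField]
      exact WithTop.coe_le_coe.2 le_top), h2 hcl]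
    ext v
    rfl

end Pool.Agent.L7h76.OG
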